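import Pool.Agent.N452.FF.Lower
import Pool.Agent.N452.TF.Xor
import Pool.Agent.Y638.RF.MinPlus

set_option autoImplicit false

/-! # Shortest paths of length two and circuits over finite fields
(adapted from `Pool.Agent.N452.TF.MinPlus` and `Pool.Agent.N452.FF.ZeroSum`) -/

namespace Pool.Agent.L0h23.AF

open Finset Pool.Agent.TH697.Form Pool.Agent.TH697.Row Pool.Agent.TH697.Form.MinPlus
open Pool.Agent.TH457.Ary.MinPlus Pool.Agent.Y638.RF.MinPlus
open Pool.Agent.N452.FF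
open Pool.Agent.N452.TF.Xor (pairs)

variable {n c w d e : ℕ}

/-- the arithmetic -/
theorem arith {n b c w L l X a s : ℝ} (hn : 16 ≤ n) (hb : 4 ≤ b) (hc : 1 ≤ c) (hw : 1 ≤ w)
    (hbl : b ≤ l) (hl : l ≤ 5 / 4 * b) (hL : L = c * l) (hX : 0 ≤ X) (ha : a ≤ 4 * l) (hs : 0 ≤ s)
    (h : n * ((49 / 600 - 0) * (n ^ 2 * b) - 1) ≤ (3 + 5 * a + 6 * X + 2 * (w - 1) * L) * s) :
    n ^ 3 * l ≤ 450 * (w * c * l + X) * s := by
  have h0 : 256 ≤ n ^ 2 := by nlinarith
  have hl0 : 0 ≤ l := by linarith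
  have h00 : 256 * b ≤ n ^ 2 * b := mul_le_mul_of_nonneg_right h0 (by linarith)
  have h1 : 2 / 25 * (n ^ 2 * b) ≤ (49 / 600 - 0) * (n ^ 2 * b) - 1 := by linarith
  have h2 : n * (2 / 25 * (n ^ 2 * b)) ≤ n * ((49 / 600 - 0) * (n ^ 2 * b) - 1) :=
    mul_le_mul_of_nonneg_left h1 (by linarith)
  have hcl : 0 ≤ c * l := by positivity
  have hwcl : c * l ≤ w * (c * l) := by nlinarith
  have hll : l ≤ c * l := by nlinarith
  have h3 : 3 + 5 * a + 6 * X + 2 * (w - 1) * L ≤ 23 * (w * c * l + X) := by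
    rw [hL]
    have e : w * c * l = w * (c * l) := by ring
    have e2 : 2 * (w - 1) * (c * l) = 2 * (w * (c * l)) - 2 * (c * l) := by ring
    rw [e, e2]
    linarith
  have h4 := mul_le_mul_of_nonneg_right h3 hs
  have h5 : n ^ 3 * l ≤ 5 / 4 * (n ^ 3 * b) := by
    have : 0 ≤ n ^ 3 := by positivity
    nlinarith
  have e1 : n * (2 / 25 * (n ^ 2 * b)) = 2 / 25 * (n ^ 3 * b) := by ring
  rw [e1] at h2
  have h9 : 0 ≤ (w * c * l + X) * s := mul_nonneg (by positivity) hs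
  nlinarith

theorem bound {K : Type} [Field K] [Fintype K] [DecidableEq K]
    (hn : 16 ≤ n) (hc : 1 ≤ c) (hw : 1 ≤ w) (he : 1 ≤ e)
    {Ω : Type} [Fintype Ω] (μ : Ω → ℝ) (hμ : IsProb μ) (s : ℕ)
    (C : Ω → Circuit K (Option (Fin n)) (Item n) w (n ^ c) d e)
    (hs : ∀ ω, (C ω).circ.cost (pairs n) ≤ s)
    (hF : ApproximatesOn μ (fun ω => (C ω).eval) (InRange n (n + 1)) (shortcut n)) :
    (n : ℝ) ^ 3 * Real.logb 2 n ≤ 450 * (w * c * Real.logb 2 n +
      d * (d + (Fintype.card K : ℝ) ^ e) * Real.logb 2 (Fintype.card K)) * s := by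
  classical
  have hw' : (1 : ℝ) ≤ w := by exact_mod_cast hw
  have hc' : (1 : ℝ) ≤ c := by exact_mod_cast hc
  have hs0 : (0 : ℝ) ≤ s := Nat.cast_nonneg s
  obtain ⟨k, hk⟩ : ∃ k, k = Fintype.card K := ⟨_, rfl⟩
  have hk1 : 2 ≤ k := by
    rw [hk]
    exact Fintype.one_lt_card
  have hk' : (2 : ℝ) ≤ k := by exact_mod_cast hk1
  have hlk : 0 ≤ Real.logb 2 (k : ℝ) := Real.logb_nonneg (by norm_num) (by linarith)
  have hd0 : (0 : ℝ) ≤ d := Nat.cast_nonneg d
  have hke : (2 : ℝ) ≤ (k : ℝ) ^ e := by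
    calc (2 : ℝ) ≤ k := hk'
      _ = (k : ℝ) ^ 1 := (pow_one _).symm
      _ ≤ (k : ℝ) ^ e := pow_le_pow_right₀ (by linarith) he
  have hee : (e : ℝ) ≤ (k : ℝ) ^ e := by
    have h1 : e < 2 ^ e := Nat.lt_two_pow_self
    have h2 : 2 ^ e ≤ k ^ e := Nat.pow_le_pow_left hk1 e
    exact_mod_cast (h1.le.trans h2)
  obtain ⟨X, hX⟩ : ∃ X, X = d * (d + (k : ℝ) ^ e) * Real.logb 2 k := ⟨_, rfl⟩
  have hX0 : 0 ≤ X := by
    rw [hX]
    positivity
  rw [← hk, ← hX]
  have hl0 : 0 ≤ Real.logb 2 (n : ℝ) :=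
    Real.logb_nonneg (by norm_num) (by exact_mod_cast (by omega : 1 ≤ n))
  by_cases hsn : n ^ 3 ≤ s
  · have h1 : (n : ℝ) ^ 3 ≤ s := by exact_mod_cast hsn
    have h2 : (1 : ℝ) ≤ w * c := by nlinarith
    have h3 : Real.logb 2 (n : ℝ) ≤ w * c * Real.logb 2 n + X := by nlinarith
    have h4 : (n : ℝ) ^ 3 * Real.logb 2 n ≤ s * Real.logb 2 n :=
      mul_le_mul_of_nonneg_right h1 hl0
    have h5 : s * Real.logb 2 n ≤ s * (w * c * Real.logb 2 n + X) :=
      mul_le_mul_of_nonneg_left h3 hs0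
    have h6 : 0 ≤ s * (w * c * Real.logb 2 n + X) := mul_nonneg hs0 (hl0.trans h3)
    linarith
  obtain ⟨b, hb⟩ : ∃ b, b = Nat.log 2 n := ⟨_, rfl⟩
  have hb4 : 4 ≤ b := by
    have := Nat.log_mono_right (b := 2) hn
    rw [hb]
    rwa [show Nat.log 2 16 = 4 by decide +kernel] at this
  have hpow : 2 ^ b ≤ n := by
    rw [hb]
    exact Nat.pow_log_le_self 2 (by omega)
  have hpow2 : n < 2 ^ (b + 1) := by
    have := Nat.lt_pow_succ_log_self (b := 2) (by norm_num) n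
    rw [hb]
    exact this
  have h := circuit_lower μ hμ s C (InRange n (2 ^ b + 1)) (shortcut n)
    (approx_mono μ _ _ _ _ (fun x hx => inRange_mono (by omega) x hx) hF) he
    (Nat.one_le_pow _ _ (by omega)) hw (n ^ 3) 0 (pairs n) hs
    (T := Fin n × Fin n × Fin b) (by
      intro a ha
      unfold pairs at ha
      rw [mem_map] at ha
      obtain ⟨i, -, rfl⟩ := ha
      exact asks hpow i)
  unfold pairs at h
  rw [card_map, card_univ, Fintype.card_fin, card_T, ← hk] at h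
  have hls : Real.logb 2 ((2 + s : ℕ) : ℝ) ≤ 4 * Real.logb 2 n := by
    have h1 : 2 + s ≤ n ^ 4 := by
      have h2 : n ^ 3 + 1 ≤ n ^ 4 := by
        have h3 : n ^ 4 = n * n ^ 3 := by ring
        have h4 : 1 ≤ n ^ 3 := Nat.one_le_pow _ _ (by omega)
        rw [h3]
        nlinarith
      omega
    have h2 : ((2 + s : ℕ) : ℝ) ≤ (n : ℝ) ^ 4 := by exact_mod_cast h1
    have h3 := Real.logb_le_logb_of_le (by norm_num : (1 : ℝ) < 2) (by positivity) h2
    rw [Real.logb_pow] at h3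
    have h4 : ((4 : ℕ) : ℝ) = 4 := by norm_num
    rw [h4] at h3
    exact h3
  have hXX : 2 * ((d : ℝ) * (d + k ^ e + e + 2)) * Real.logb 2 k ≤ 6 * X := by
    have h7 : (d : ℝ) * (d + k ^ e + e + 2) ≤ d * (3 * (d + (k : ℝ) ^ e)) :=
      mul_le_mul_of_nonneg_left (by linarith) hd0
    have h8 := mul_le_mul_of_nonneg_right h7 hlk
    calc 2 * ((d : ℝ) * (d + k ^ e + e + 2)) * Real.logb 2 k
        = 2 * ((d : ℝ) * (d + k ^ e + e + 2) * Real.logb 2 k) := by ring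
      _ ≤ 2 * (d * (3 * (d + (k : ℝ) ^ e)) * Real.logb 2 k) := by linarith
      _ = 6 * X := by rw [hX]; ring
  have hbl : (b : ℝ) ≤ Real.logb 2 n := by
    rw [Real.le_logb_iff_rpow_le (by norm_num) (by exact_mod_cast (by omega : 0 < n)),
      Real.rpow_natCast]
    exact_mod_cast hpow
  refine arith (l := Real.logb 2 n) (L := c * Real.logb 2 n) (b := b)
    (a := Real.logb 2 ((2 + s : ℕ) : ℝ))
    (by exact_mod_cast hn) (by exact_mod_cast hb4) hc' hw' hbl ?_ rfl hX0 hls hs0 ?_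
  · have h9 := logb_q (c := 1) (by omega) hb4 hpow2
    simpa using h9
  · push_cast at h
    simp only [Real.logb_pow] at h
    refine h.trans ?_
    apply mul_le_mul_of_nonneg_right _ hs0
    push_cast
    linarith

end Pool.Agent.L0h23.AF
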